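import Mathlib
import Pool.Agent.R477.XQ.Furst

/-!
# Furstenberg's theorem and compactness

For every nonempty open subset `V` of the circle there is a finite set `Y`, mapped into itself by the
multiplications by four and by nine, such that every point `t` at distance at least `η` from `Y` is moved
into `V` by one of the multipliers `4 ^ i * 9 ^ k`, `i + k ≤ R`, where `R` depends on `V` and `η` only.
-/

set_option autoImplicit false

namespace Pool.Agent.J4H78.TS

open Filter Topology Set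
open Pool.Agent.H847R3.XpXq (TT Inv)

lemma irr49 : Irrational (Real.log ((4 : ℕ) : ℝ) / Real.log ((9 : ℕ) : ℝ)) := by
  have hlp : 0 < Real.log ((4 : ℕ) : ℝ) := Real.log_pos (by norm_num)
  have hlq : 0 < Real.log ((9 : ℕ) : ℝ) := Real.log_pos (by norm_num)
  rintro ⟨r, hr⟩
  have hr0 : (0 : ℝ) < (r : ℝ) := by rw [hr]; positivity
  have hr1 : 0 < r := by exact_mod_cast hr0
  have hnum : 0 < r.num := Rat.num_pos.2 hr1
  obtain ⟨a, ha⟩ : ∃ a : ℕ, r.num = a := ⟨r.num.toNat, (Int.toNat_of_nonneg hnum.le).symm⟩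
  have hden : 0 < r.den := r.den_pos
  have h1 : (r : ℝ) = (a : ℝ) / r.den := by
    rw [Rat.cast_def, ha, Int.cast_natCast]
  rw [h1] at hr
  have h2 : (r.den : ℝ) * Real.log ((4 : ℕ) : ℝ) = a * Real.log ((9 : ℕ) : ℝ) := by
    have : (r.den : ℝ) ≠ 0 := by positivity
    field_simp at hr
    linarith
  have h3 : Real.log (((4 : ℕ) : ℝ) ^ r.den) = Real.log (((9 : ℕ) : ℝ) ^ a) := by
    rw [Real.log_pow, Real.log_pow]; exact h2
  have h4 : ((4 : ℕ) : ℝ) ^ r.den = ((9 : ℕ) : ℝ) ^ a :=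
    Real.log_injOn_pos (Set.mem_Ioi.2 (by positivity)) (Set.mem_Ioi.2 (by positivity)) h3
  have h5 : (4 : ℕ) ^ r.den = 9 ^ a := by exact_mod_cast h4
  have h6 : Even ((4 : ℕ) ^ r.den) := (Nat.even_pow' hden.ne').2 (by decide)
  rw [h5] at h6
  have h7 : Odd ((9 : ℕ) ^ a) := Odd.pow (by decide)
  exact (Nat.not_even_iff_odd.2 h7) h6

theorem finite_net {V : Set TT} (hV : IsOpen V) (hne : V.Nonempty) :
    ∃ Y : Set TT, Y.Finite ∧ Inv 4 9 Y ∧ ∀ η : ℝ, 0 < η → ∃ R : ℕ, ∀ t : TT,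
      (∀ i k : ℕ, i + k ≤ R → (4 ^ i * 9 ^ k) • t ∉ V) → ∃ y ∈ Y, dist t y < η := by
  set Y : Set TT := {t | ∀ i k : ℕ, (4 ^ i * 9 ^ k) • t ∉ V} with hY
  have hcl : ∀ m : ℕ, IsClosed {t : TT | m • t ∉ V} := fun m =>
    (hV.preimage (continuous_nsmul m)).isClosed_compl
  have hYc : IsClosed Y := by
    have e : Y = ⋂ i : ℕ, ⋂ k : ℕ, {t : TT | (4 ^ i * 9 ^ k) • t ∉ V} := by
      ext t
      simp [hY]
    rw [e]
    exact isClosed_iInter fun i => isClosed_iInter fun k => hcl _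
  have hinv : Inv 4 9 Y := by
    intro t ht
    refine ⟨fun i k => ?_, fun i k => ?_⟩
    · have h := ht (i + 1) k
      rw [← mul_smul]
      have e : 4 ^ i * 9 ^ k * 4 = 4 ^ (i + 1) * 9 ^ k := by ring
      rw [e]
      exact h
    · have h := ht i (k + 1)
      rw [← mul_smul]
      have e : 4 ^ i * 9 ^ k * 9 = 4 ^ i * 9 ^ (k + 1) := by ring
      rw [e]
      exact h
  have hfin : Y.Finite := by
    by_contra hinf
    have h1 := Pool.Agent.R477.XQ.furst (p := 4) (q := 9) (by norm_num) (by norm_num) irr49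
      hYc hinv hinf
    obtain ⟨v, hv⟩ := hne
    have h2 : v ∈ Y := by rw [h1]; exact mem_univ _
    have h3 := h2 0 0
    simp only [pow_zero, mul_one, one_smul] at h3
    exact h3 hv
  refine ⟨Y, hfin, hinv, fun η hη => ?_⟩
  set C : ℕ → Set TT := fun R => {t | ∀ i k : ℕ, i + k ≤ R → (4 ^ i * 9 ^ k) • t ∉ V} with hC
  have hCc : ∀ R, IsClosed (C R) := by
    intro R
    have e : C R = ⋂ i : ℕ, ⋂ k : ℕ, ⋂ _ : i + k ≤ R, {t : TT | (4 ^ i * 9 ^ k) • t ∉ V} := by
      ext t
      simp [hC]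
    rw [e]
    exact isClosed_iInter fun i => isClosed_iInter fun k => isClosed_iInter fun _ => hcl _
  obtain ⟨R, hR⟩ := exists_subset_nhds_of_isCompact' (V := C) (U := {t | ∃ y ∈ Y, dist t y < η})
    (by
      intro a b
      refine ⟨max a b, fun t ht i k hik => ht i k (hik.trans (le_max_left _ _)),
        fun t ht i k hik => ht i k (hik.trans (le_max_right _ _))⟩)
    (fun R => (hCc R).isCompact) hCc (by
      intro t ht
      have htY : t ∈ Y := fun i k => (mem_iInter.1 ht (i + k)) i k le_rfl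
      have hopen : IsOpen {t : TT | ∃ y ∈ Y, dist t y < η} := by
        have e : {t : TT | ∃ y ∈ Y, dist t y < η} = ⋃ y ∈ Y, Metric.ball y η := by
          ext t
          simp
        rw [e]
        exact isOpen_biUnion fun y _ => Metric.isOpen_ball
      exact hopen.mem_nhds ⟨t, htY, by rw [dist_self]; exact hη⟩)
  exact ⟨R, fun t ht => hR ht⟩

end Pool.Agent.J4H78.TS
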