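import Mathlib
import Pool.Agent.J4H78.TS.Net
import Pool.Agent.H639R3.PQ.Main

/-!
# Visits of the orbits of multiplication by `3/2` to open sets, at bounded distance in the `6`-direction
-/

set_option autoImplicit false

namespace Pool.Agent.J4H78.TS

open Filter Topology Set
open Pool.Agent.H847R3.XpXq (TT Inv)

/-- the tails of the orbit are not near a finite set -/
theorem away {Y : Set TT} (hY : Y.Finite) :
    ∃ η : ℝ, 0 < η ∧ ∀ ξ : ℝ, ξ ≠ 0 → ∀ N : ℕ, ∃ n ≥ N, ∀ y ∈ Y,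
      η ≤ dist ((((3 / 2 : ℝ) ^ n * ξ : ℝ)) : TT) y := by
  classical
  obtain ⟨η, hη, h⟩ := Pool.Agent.H639R3.PQ.sep 3 2 le_rfl (by norm_num) (by norm_num)
    (hY.toFinset.card + 1) 1 le_rfl
  refine ⟨η / 2, by positivity, fun ξ hξ N => ?_⟩
  obtain ⟨s, hs, h1⟩ := h ((3 / 2 : ℝ) ^ N * ξ) (mul_ne_zero (by positivity) hξ)
  by_contra hcon
  push Not at hcon
  have h2 : ∀ i : ℕ, ∃ y ∈ Y, dist ((((3 / 2 : ℝ) ^ (i + N) * ξ : ℝ)) : TT) y < η / 2 :=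
    fun i => hcon (i + N) (by omega)
  choose f hf1 hf2 using h2
  obtain ⟨a, ha, b, hb, hab, h3⟩ := Finset.exists_ne_map_eq_of_card_lt_of_maps_to
    (s := s) (t := hY.toFinset) (f := f) (by omega) (fun a _ => by simpa using hf1 a)
  have h4 := h1 a ha b hb hab 1 (by simp)
  have h5 : dist ((((3 / 2 : ℝ) ^ (a + N) * ξ : ℝ)) : TT) ((((3 / 2 : ℝ) ^ (b + N) * ξ : ℝ)) : TT) < η := by
    calc _ ≤ dist ((((3 / 2 : ℝ) ^ (a + N) * ξ : ℝ)) : TT) (f a) +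
          dist ((((3 / 2 : ℝ) ^ (b + N) * ξ : ℝ)) : TT) (f a) := dist_triangle_right _ _ _
      _ < η / 2 + η / 2 := by
          refine add_lt_add (hf2 a) ?_
          rw [h3]
          exact hf2 b
      _ = η := by ring
  rw [dist_eq_norm, ← AddCircle.coe_sub, UnitAddCircle.norm_eq] at h5
  have e : ((1 : ℕ) : ℝ) * (((((3 : ℕ) : ℝ)) / ((2 : ℕ) : ℝ)) ^ a * ((3 / 2 : ℝ) ^ N * ξ) -
      ((((3 : ℕ) : ℝ)) / ((2 : ℕ) : ℝ)) ^ b * ((3 / 2 : ℝ) ^ N * ξ)) =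
      (3 / 2 : ℝ) ^ (a + N) * ξ - (3 / 2 : ℝ) ^ (b + N) * ξ := by
    push_cast
    rw [pow_add, pow_add]
    ring
  rw [e] at h4
  linarith

/-- **Visits.** -/
theorem visit {V : Set TT} (hV : IsOpen V) (hne : V.Nonempty) :
    ∃ R : ℕ, ∀ ξ : ℝ, ξ ≠ 0 → ∃ r ≤ R, ∀ N : ℕ, ∃ n ≥ N,
      (((6 : ℝ) ^ r * ((3 / 2 : ℝ) ^ n * ξ) : ℝ) : TT) ∈ V := by
  obtain ⟨Y, hYf, -, hY⟩ := finite_net hV hne
  obtain ⟨η, hη, haway⟩ := away hYf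
  obtain ⟨R, hR⟩ := hY η hη
  refine ⟨R, fun ξ hξ => ?_⟩
  have h1 : ∀ N : ℕ, ∃ r ≤ R, ∃ n ≥ N, (((6 : ℝ) ^ r * ((3 / 2 : ℝ) ^ n * ξ) : ℝ) : TT) ∈ V := by
    intro N
    obtain ⟨n, hn, h2⟩ := haway ξ hξ (N + R)
    have h3 : ¬ ∀ i k : ℕ, i + k ≤ R → (4 ^ i * 9 ^ k) • ((((3 / 2 : ℝ) ^ n * ξ : ℝ)) : TT) ∉ V := by
      intro hcon
      obtain ⟨y, hy, hd⟩ := hR _ hcon
      exact absurd (h2 y hy) (not_le.2 hd)
    push Not at h3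
    obtain ⟨i, k, hik, h4⟩ := h3
    refine ⟨i + k, hik, n + k - i, by omega, ?_⟩
    rw [← AddCircle.coe_nsmul, nsmul_eq_mul] at h4
    have e : (6 : ℝ) ^ (i + k) * ((3 / 2 : ℝ) ^ (n + k - i) * ξ) =
        ((4 ^ i * 9 ^ k : ℕ) : ℝ) * ((3 / 2 : ℝ) ^ n * ξ) := by
      obtain ⟨m, hm⟩ : ∃ m, n = m + i := ⟨n - i, by omega⟩
      have e1 : n + k - i = m + k := by omega
      rw [e1, hm]
      push_cast
      have e4 : (4 : ℝ) ^ i = 6 ^ i * (2 / 3) ^ i := by rw [← mul_pow]; norm_num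
      have e9 : (9 : ℝ) ^ k = 6 ^ k * (3 / 2) ^ k := by rw [← mul_pow]; norm_num
      have e5 : ((2 : ℝ) / 3) ^ i * (3 / 2) ^ i = 1 := by rw [← mul_pow]; norm_num
      rw [e4, e9, pow_add, pow_add, pow_add]
      linear_combination (-(6 : ℝ) ^ i * 6 ^ k * (3 / 2) ^ m * (3 / 2) ^ k * ξ) * e5
    rw [e]
    exact h4
  by_contra hcon
  push Not at hcon
  choose! g hg using hcon
  obtain ⟨r, hr, n, hn, h2⟩ := h1 ((Finset.range (R + 1)).sup g)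
  refine hg r hr n ?_ h2
  exact (Finset.le_sup (f := g) (Finset.mem_range.2 (by omega))).trans hn

end Pool.Agent.J4H78.TS
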