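import Mathlib
import Pool.Agent.J4H78.TS.Visit
import Pool.Agent.H429R2.Auto

/-!
# Runs of consecutive positions at which all words are shown
-/

set_option autoImplicit false

namespace Pool.Agent.J4H78.TS

open Filter Topology Set Polynomial
open Pool.Agent.H847R3.XpXq (TT Inv)

/-- the middle half of the arc of the word of length `L` with the number `c` -/
def arc (L c : ℕ) : Set TT := Metric.ball ((((c : ℝ) + 1 / 2) / 6 ^ L : ℝ) : TT) (1 / (4 * 6 ^ L))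

lemma arc_open (L c : ℕ) : IsOpen (arc L c) := Metric.isOpen_ball

lemma mem_arc {L c : ℕ} {y : ℝ} (h : |(y - ((c : ℝ) + 1 / 2) / 6 ^ L) -
    round (y - ((c : ℝ) + 1 / 2) / 6 ^ L)| < 1 / (4 * 6 ^ L)) : (y : TT) ∈ arc L c := by
  unfold arc
  rw [Metric.mem_ball, dist_eq_norm, ← AddCircle.coe_sub, UnitAddCircle.norm_eq]
  exact h

lemma arc_mem {L c : ℕ} {y : ℝ} (h : (y : TT) ∈ arc L c) : |(y - ((c : ℝ) + 1 / 2) / 6 ^ L) -
    round (y - ((c : ℝ) + 1 / 2) / 6 ^ L)| < 1 / (4 * 6 ^ L) := by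
  unfold arc at h
  rwa [Metric.mem_ball, dist_eq_norm, ← AddCircle.coe_sub, UnitAddCircle.norm_eq] at h

/-- a real number all of whose shifts by at most `M` places have dense enough orbits -/
theorem generic (M : ℕ) {ε : ℝ} (hε : 0 < ε) : ∃ τ : ℝ, ∀ s < M, ∀ γ : ℝ, ∃ᶠ n : ℕ in atTop,
    |((3 / 2 : ℝ) ^ n * (6 ^ s * τ) - γ) - round ((3 / 2 : ℝ) ^ n * (6 ^ s * τ) - γ)| < ε := by
  classical
  have hδ : (0 : ℝ) < 1 / (2 * (M + 1)) := by positivity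
  obtain ⟨N₀, hN₀⟩ := Pool.Agent.H639R3.PQ.main' 3 2 (by norm_num) (by norm_num) (by norm_num) 1 ε
    (1 / (2 * (M + 1))) hε hδ
  set N := max N₀ 1 with hN
  have hN1 : 1 ≤ N := le_max_right _ _
  set Bad : ℕ → Finset ℕ := fun s => (Finset.range N).filter (fun l : ℕ => ¬ ∀ γ : ℝ,
    ∃ᶠ n : ℕ in atTop, |(((3 : ℕ) / (2 : ℕ) : ℝ) ^ n * (C ((6 : ℝ) ^ s) * X).eval (l : ℝ) - γ)
      - round (((3 : ℕ) / (2 : ℕ) : ℝ) ^ n * (C ((6 : ℝ) ^ s) * X).eval (l : ℝ) - γ)| < ε)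
    with hBad
  have hcard : ∀ s, ((Bad s).card : ℝ) ≤ 1 / (2 * (M + 1)) * N := by
    intro s
    have hdeg : (C ((6 : ℝ) ^ s) * X).natDegree = 1 := natDegree_C_mul_X _ (by positivity)
    exact hN₀ (C ((6 : ℝ) ^ s) * X) (by rw [hdeg]) (by rw [hdeg]) N (le_max_left _ _)
      (Bad s) (Finset.filter_subset _ _) (fun l hl => (Finset.mem_filter.1 hl).2)
  have hlt : ((Finset.range M).biUnion Bad).card < N := by
    have h1 : (((Finset.range M).biUnion Bad).card : ℝ) ≤ M * (1 / (2 * (M + 1)) * N) := by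
      calc (((Finset.range M).biUnion Bad).card : ℝ) ≤ ((∑ s ∈ Finset.range M, (Bad s).card : ℕ) : ℝ) := by
            exact_mod_cast Finset.card_biUnion_le
        _ = ∑ s ∈ Finset.range M, ((Bad s).card : ℝ) := by push_cast; rfl
        _ ≤ ∑ _s ∈ Finset.range M, 1 / (2 * ((M : ℝ) + 1)) * N := Finset.sum_le_sum fun s _ => hcard s
        _ = _ := by rw [Finset.sum_const, Finset.card_range, nsmul_eq_mul]
    have hNr : (1 : ℝ) ≤ N := by exact_mod_cast hN1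
    have h2 : (M : ℝ) * (1 / (2 * (M + 1)) * N) < N := by
      have hM : (0 : ℝ) ≤ M := Nat.cast_nonneg M
      have e : (M : ℝ) * (1 / (2 * (M + 1)) * N) = (M / (2 * (M + 1))) * N := by ring
      rw [e]
      have h3 : (M : ℝ) / (2 * (M + 1)) < 1 := by
        rw [div_lt_one (by positivity)]
        linarith
      nlinarith
    exact_mod_cast lt_of_le_of_lt h1 h2
  obtain ⟨l, hl, hl2⟩ : ∃ l ∈ Finset.range N, l ∉ (Finset.range M).biUnion Bad := by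
    by_contra hcon
    push Not at hcon
    have h1 : Finset.range N ⊆ (Finset.range M).biUnion Bad := hcon
    have h2 := Finset.card_le_card h1
    rw [Finset.card_range] at h2
    omega
  refine ⟨l, fun s hs γ => ?_⟩
  have h1 : l ∉ Bad s := fun h => hl2 (Finset.mem_biUnion.2 ⟨s, Finset.mem_range.2 hs, h⟩)
  have h2 : ∀ γ : ℝ, ∃ᶠ n : ℕ in atTop,
      |(((3 : ℕ) / (2 : ℕ) : ℝ) ^ n * (C ((6 : ℝ) ^ s) * X).eval (l : ℝ) - γ)
      - round (((3 : ℕ) / (2 : ℕ) : ℝ) ^ n * (C ((6 : ℝ) ^ s) * X).eval (l : ℝ) - γ)| < ε := by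
    by_contra hcon
    exact h1 (Finset.mem_filter.2 ⟨hl, hcon⟩)
  have h3 := h2 γ
  simp only [eval_mul, eval_C, eval_X] at h3
  norm_num at h3 ⊢
  exact h3

/-- an open set of points all of whose shifts by `S, …, S + M - 1` places visit all arcs soon -/
theorem univ_set (L M : ℕ) : ∃ (S : ℕ) (V : Set TT), IsOpen V ∧ V.Nonempty ∧
    ∀ y : ℝ, (y : TT) ∈ V → ∀ s < M, ∀ c < 6 ^ L, ∃ m ≤ S,
      (((6 : ℝ) ^ (S + s) * ((3 / 2 : ℝ) ^ m * y) : ℝ) : TT) ∈ arc L c := by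
  classical
  have hε : (0 : ℝ) < 1 / (4 * 6 ^ L) := by positivity
  obtain ⟨τ, hτ⟩ := generic M hε
  have h1 : ∀ s c : ℕ, ∃ m : ℕ, s < M →
      ((((3 / 2 : ℝ) ^ m * (6 ^ s * τ)) : ℝ) : TT) ∈ arc L c := by
    intro s c
    by_cases hs : s < M
    · obtain ⟨m, hm⟩ := (hτ s hs (((c : ℝ) + 1 / 2) / 6 ^ L)).exists
      exact ⟨m, fun _ => mem_arc hm⟩
    · exact ⟨0, fun h => absurd h hs⟩
  choose m hm using h1
  set S : ℕ := (Finset.range M).sup (fun s => (Finset.range (6 ^ L)).sup (fun c => m s c)) with hS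
  have hmS : ∀ s < M, ∀ c < 6 ^ L, m s c ≤ S := by
    intro s hs c hc
    exact (Finset.le_sup (f := fun c => m s c) (Finset.mem_range.2 hc)).trans
      (Finset.le_sup (f := fun s => (Finset.range (6 ^ L)).sup (fun c => m s c)) (Finset.mem_range.2 hs))
  -- the multiplier as an integer
  have hmul : ∀ s < M, ∀ c < 6 ^ L, ∀ y : ℝ, ((3 ^ (S + s + m s c) * 2 ^ (S + s - m s c) : ℕ) : ℝ) * y =
      (6 : ℝ) ^ (S + s) * ((3 / 2 : ℝ) ^ (m s c) * y) := by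
    intro s hs c hc y
    obtain ⟨d, hd⟩ : ∃ d, S + s = d + m s c := ⟨S + s - m s c, by have := hmS s hs c hc; omega⟩
    have e1 : S + s - m s c = d := by omega
    rw [e1, hd]
    push_cast
    have e6 : (6 : ℝ) ^ d = 3 ^ d * 2 ^ d := by rw [← mul_pow]; norm_num
    have e7 : (6 : ℝ) ^ (m s c) * (3 / 2) ^ (m s c) = 3 ^ (m s c) * 3 ^ (m s c) := by
      rw [← mul_pow, ← mul_pow]; norm_num
    rw [pow_add, pow_add, pow_add, e6]
    linear_combination (-(3 : ℝ) ^ d * 2 ^ d * y) * e7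
  set V : Set TT := ⋂ s ∈ Finset.range M, ⋂ c ∈ Finset.range (6 ^ L),
    {t : TT | (3 ^ (S + s + m s c) * 2 ^ (S + s - m s c)) • t ∈ arc L c} with hV
  refine ⟨S, V, ?_, ⟨((τ / 6 ^ S : ℝ) : TT), ?_⟩, ?_⟩
  · refine isOpen_biInter_finset fun s _ => isOpen_biInter_finset fun c _ => ?_
    exact (arc_open L c).preimage (continuous_nsmul _)
  · rw [hV]
    simp only [mem_iInter]
    intro s hs c hc
    have hs' := Finset.mem_range.1 hs
    have hc' := Finset.mem_range.1 hc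
    show (3 ^ (S + s + m s c) * 2 ^ (S + s - m s c)) • ((τ / 6 ^ S : ℝ) : TT) ∈ arc L c
    rw [← AddCircle.coe_nsmul, nsmul_eq_mul, hmul s hs' c hc']
    have e : (6 : ℝ) ^ (S + s) * ((3 / 2 : ℝ) ^ (m s c) * (τ / 6 ^ S)) =
        (3 / 2 : ℝ) ^ (m s c) * (6 ^ s * τ) := by
      rw [pow_add]
      field_simp
    rw [e]
    exact hm s c hs'
  · intro y hy s hs c hc
    refine ⟨m s c, hmS s hs c hc, ?_⟩
    rw [hV] at hy
    simp only [mem_iInter] at hy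
    have h2 := hy s (Finset.mem_range.2 hs) c (Finset.mem_range.2 hc)
    have h3 : (3 ^ (S + s + m s c) * 2 ^ (S + s - m s c)) • ((y : ℝ) : TT) ∈ arc L c := h2
    rw [← AddCircle.coe_nsmul, nsmul_eq_mul, hmul s hs c hc] at h3
    exact h3

/-- **Runs**, real form. -/
theorem runs_real (L M : ℕ) : ∃ R T : ℕ, ∀ ξ : ℝ, ξ ≠ 0 → ∃ r ≤ R, ∀ N : ℕ, ∃ n ≥ N,
    ∀ s < M, ∀ c < 6 ^ L, ∃ t ≤ T,
      (((6 : ℝ) ^ (r + s) * ((3 / 2 : ℝ) ^ (n + t) * ξ) : ℝ) : TT) ∈ arc L c := by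
  obtain ⟨S, V, hV, hne, h⟩ := univ_set L M
  obtain ⟨R, hR⟩ := visit hV hne
  refine ⟨R + S, S, fun ξ hξ => ?_⟩
  obtain ⟨r, hr, h1⟩ := hR ξ hξ
  refine ⟨r + S, by omega, fun N => ?_⟩
  obtain ⟨n, hn, h2⟩ := h1 N
  refine ⟨n, hn, fun s hs c hc => ?_⟩
  obtain ⟨m, hm, h3⟩ := h _ h2 s hs c hc
  refine ⟨m, hm, ?_⟩
  have e : (6 : ℝ) ^ (r + S + s) * ((3 / 2 : ℝ) ^ (n + m) * ξ) =
      (6 : ℝ) ^ (S + s) * ((3 / 2 : ℝ) ^ m * ((6 : ℝ) ^ r * ((3 / 2 : ℝ) ^ n * ξ))) := by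
    rw [pow_add _ n m, show r + S + s = (S + s) + r by ring, pow_add _ (S + s) r]
    ring
  rw [e]
  exact h3

end Pool.Agent.J4H78.TS
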