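import Mathlib
import Pool.Agent.J4H78.TS.Runs
import Pool.Agent.TH419.FS.RidPow

/-!
# Chains of space-time points near a finite set of residues

A chain of neighbouring points of the space-time diagram of a nonzero finite configuration, all of whose
fractional parts are near a finite set invariant under the multiplications by four and by nine, is
short in the expanding direction (Ridout's theorem).
-/

set_option autoImplicit false

namespace Pool.Agent.J4H78.TS

open Filter Topology Set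
open Pool.Agent.H847R3.XpXq (TT Inv)

/-- the common denominator of a finite invariant set -/
lemma exists_denom {Y : Set TT} (hY : Y.Finite) (hinv : Inv 4 9 Y) :
    ∃ Q : ℕ, 1 ≤ Q ∧ ∀ r ∈ Y, Q • r = 0 := by
  classical
  have hfo : ∀ r ∈ Y, IsOfFinAddOrder r := by
    intro r hr
    have hmem : ∀ i : ℕ, (4 ^ i) • r ∈ Y := by
      intro i
      induction i with
      | zero => simpa using hr
      | succ i ih =>
        have h1 := (hinv _ ih).1
        rw [← mul_smul] at h1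
        have e : 4 * 4 ^ i = 4 ^ (i + 1) := by ring
        rw [e] at h1
        exact h1
    obtain ⟨i, -, j, -, hij, h⟩ := Set.infinite_univ.exists_ne_map_eq_of_mapsTo
      (s := (Set.univ : Set ℕ)) (t := Y) (f := fun i : ℕ => (4 ^ i) • r) (fun i _ => hmem i) hY
    have key : ∀ i j : ℕ, i < j → (4 ^ i) • r = (4 ^ j) • r → IsOfFinAddOrder r := by
      intro i j hij h
      rw [isOfFinAddOrder_iff_nsmul_eq_zero]
      refine ⟨4 ^ j - 4 ^ i, Nat.sub_pos_of_lt (Nat.pow_lt_pow_right (by norm_num) hij), ?_⟩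
      have hle : 4 ^ i ≤ 4 ^ j := Nat.pow_le_pow_right (by norm_num) hij.le
      have h1 : (4 ^ j - 4 ^ i) • r + (4 ^ i) • r = (4 ^ j) • r := by
        rw [← add_smul, Nat.sub_add_cancel hle]
      rw [h] at h1
      simpa using h1
    rcases lt_or_gt_of_ne hij with h2 | h2
    · exact key i j h2 h
    · exact key j i h2 h.symm
  refine ⟨∏ r ∈ hY.toFinset, addOrderOf r, ?_, fun r hr => ?_⟩
  · apply Nat.one_le_iff_ne_zero.2
    rw [Finset.prod_ne_zero_iff]
    intro r hr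
    exact (hfo r (by simpa using hr)).addOrderOf_pos.ne'
  · obtain ⟨c, hc⟩ := Finset.dvd_prod_of_mem (fun r => addOrderOf r) (hY.mem_toFinset.2 hr)
    rw [hc, mul_comm, mul_smul, addOrderOf_nsmul_eq_zero, smul_zero]

lemma exists_gap (D : Set TT) (hD : D.Finite) : ∃ c : ℝ, 0 < c ∧ ∀ d ∈ D, d ≠ 0 → c ≤ ‖d‖ := by
  refine Set.Finite.induction_on D hD ⟨1, one_pos, by simp⟩ ?_
  intro a s _ _ ⟨c, hc, h⟩
  by_cases ha : a = 0
  · refine ⟨c, hc, fun d hd hd0 => ?_⟩
    rcases Set.mem_insert_iff.1 hd with rfl | h1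
    · exact absurd ha hd0
    · exact h d h1 hd0
  · refine ⟨min c ‖a‖, lt_min hc (norm_pos_iff.2 ha), fun d hd hd0 => ?_⟩
    rcases Set.mem_insert_iff.1 hd with rfl | h1
    · exact min_le_right _ _
    · exact (min_le_left _ _).trans (h d h1 hd0)

/-- one step: the errors are multiplied exactly -/
lemma step_gap {Y : Set TT} (hY : Y.Finite) : ∃ η : ℝ, 0 < η ∧ ∀ A B : ℕ, A ≤ 9 → B ≤ 9 →
    ∀ (y y' δ δ' : ℝ) (r r' : TT), r ∈ Y → r' ∈ Y → (y : TT) = r + (δ : TT) → (y' : TT) = r' + (δ' : TT) →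
    |δ| < η → |δ'| < η → (A : ℝ) * y' = B * y → (A : ℝ) * δ' = B * δ := by
  set D : Set TT := ⋃ A ∈ Finset.range 10, ⋃ B ∈ Finset.range 10,
    (fun q : TT × TT => (A : ℕ) • q.2 - (B : ℕ) • q.1) '' (Y ×ˢ Y) with hD
  have hDf : D.Finite := by
    rw [hD]
    refine Set.Finite.biUnion (Finset.finite_toSet _) fun A _ => ?_
    refine Set.Finite.biUnion (Finset.finite_toSet _) fun B _ => ?_
    exact (hY.prod hY).image _
  obtain ⟨c, hc, hgap⟩ := exists_gap D hDf
  refine ⟨min (c / 20) (1 / 40), lt_min (by positivity) (by norm_num), ?_⟩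
  intro A B hA hB y y' δ δ' r r' hr hr' hy hy' hδ hδ' hAB
  have hA0 : (0 : ℝ) ≤ A := Nat.cast_nonneg A
  have hB0 : (0 : ℝ) ≤ B := Nat.cast_nonneg B
  have hA9 : (A : ℝ) ≤ 9 := by exact_mod_cast hA
  have hB9 : (B : ℝ) ≤ 9 := by exact_mod_cast hB
  have hd1 : |δ| < c / 20 := lt_of_lt_of_le hδ (min_le_left _ _)
  have hd1' : |δ'| < c / 20 := lt_of_lt_of_le hδ' (min_le_left _ _)
  have hd2 : |δ| < 1 / 40 := lt_of_lt_of_le hδ (min_le_right _ _)
  have hd2' : |δ'| < 1 / 40 := lt_of_lt_of_le hδ' (min_le_right _ _)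
  have hbound : ∀ e : ℝ, |δ| < e → |δ'| < e → |(A : ℝ) * δ' - B * δ| < 20 * e := by
    intro e h1 h2
    have he : 0 < e := lt_of_le_of_lt (abs_nonneg _) h1
    calc |(A : ℝ) * δ' - B * δ| ≤ |(A : ℝ) * δ'| + |B * δ| := abs_sub _ _
      _ = A * |δ'| + B * |δ| := by rw [abs_mul, abs_mul, abs_of_nonneg hA0, abs_of_nonneg hB0]
      _ ≤ 9 * e + 9 * e := add_le_add (mul_le_mul hA9 h2.le (abs_nonneg _) (by norm_num))
          (mul_le_mul hB9 h1.le (abs_nonneg _) (by norm_num))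
      _ < 20 * e := by linarith
  have h1 : (((A : ℝ) * y' - B * y : ℝ) : TT) = 0 := by rw [hAB, sub_self]; simp
  have h2 : (((A : ℝ) * y' - B * y : ℝ) : TT) =
      (A • r' - B • r) + (((A : ℝ) * δ' - B * δ : ℝ) : TT) := by
    rw [AddCircle.coe_sub, AddCircle.coe_sub, ← nsmul_eq_mul, ← nsmul_eq_mul, ← nsmul_eq_mul,
      ← nsmul_eq_mul, AddCircle.coe_nsmul, AddCircle.coe_nsmul, AddCircle.coe_nsmul,
      AddCircle.coe_nsmul, hy, hy', smul_add, smul_add]
    abel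
  rw [h2] at h1
  have h3 : ‖(((A : ℝ) * δ' - B * δ : ℝ) : TT)‖ ≤ |(A : ℝ) * δ' - B * δ| := by
    have := Pool.Agent.H847R3.XpXq.dist_coe_le ((A : ℝ) * δ' - B * δ) 0
    rwa [AddCircle.coe_zero, dist_zero_right, sub_zero] at this
  have h4 : A • r' - B • r = 0 := by
    by_contra hne
    have hmem : A • r' - B • r ∈ D := by
      rw [hD]
      simp only [mem_iUnion]
      exact ⟨A, Finset.mem_range.2 (by omega), B, Finset.mem_range.2 (by omega), (r, r'),
        ⟨hr, hr'⟩, rfl⟩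
    have h5 := hgap _ hmem hne
    have h6 : A • r' - B • r = -(((A : ℝ) * δ' - B * δ : ℝ) : TT) := eq_neg_of_add_eq_zero_left h1
    rw [h6, norm_neg] at h5
    have h7 := hbound _ hd1 hd1'
    linarith
  rw [h4, zero_add, AddCircle.coe_eq_zero_iff] at h1
  obtain ⟨n, hn⟩ := h1
  simp only [zsmul_eq_mul, mul_one] at hn
  have h8 := hbound _ hd2 hd2'
  rw [← hn] at h8
  have h9 : |(n : ℝ)| < 1 := by linarith
  have h10 : n = 0 := by
    have : |n| < 1 := by exact_mod_cast h9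
    exact Int.abs_lt_one_iff.1 this
  rw [h10] at hn
  push_cast at hn
  linarith

/-- the size of the multiplier at the time `m` and the position `b` -/
noncomputable def g (m : ℕ) (b : ℤ) : ℝ := (6 : ℝ) ^ b * (3 / 2) ^ m

lemma g_pos (m : ℕ) (b : ℤ) : 0 < g m b := by
  unfold g
  positivity

/-- neighbouring points -/
lemma g_step {m m' : ℕ} {b b' : ℤ} (hm : |(m' : ℤ) - m| ≤ 1) (hb : |b' - b| ≤ 1) :
    ∃ A B : ℕ, 1 ≤ A ∧ A ≤ 9 ∧ B ≤ 9 ∧ (A : ℝ) * g m' b' = B * g m b := by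
  rw [abs_le] at hm hb
  have h6 : (6 : ℝ) ≠ 0 := by norm_num
  have hm3 : m' = m ∨ m' = m + 1 ∨ m = m' + 1 := by omega
  have hb3 : b' = b ∨ b' = b + 1 ∨ b = b' + 1 := by omega
  unfold g
  rcases hm3 with rfl | rfl | rfl <;> rcases hb3 with rfl | rfl | rfl
  · exact ⟨1, 1, by norm_num, by norm_num, by norm_num, by push_cast; ring⟩
  · exact ⟨1, 6, by norm_num, by norm_num, by norm_num, by
      rw [zpow_add_one₀ h6]; push_cast; ring⟩
  · exact ⟨6, 1, by norm_num, by norm_num, by norm_num, by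
      rw [zpow_add_one₀ h6]; push_cast; ring⟩
  · exact ⟨2, 3, by norm_num, by norm_num, by norm_num, by
      rw [pow_succ]; push_cast; ring⟩
  · exact ⟨1, 9, by norm_num, by norm_num, by norm_num, by
      rw [pow_succ, zpow_add_one₀ h6]; push_cast; ring⟩
  · exact ⟨4, 1, by norm_num, by norm_num, by norm_num, by
      rw [pow_succ, zpow_add_one₀ h6]; push_cast; ring⟩
  · exact ⟨3, 2, by norm_num, by norm_num, by norm_num, by
      rw [pow_succ]; push_cast; ring⟩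
  · exact ⟨1, 4, by norm_num, by norm_num, by norm_num, by
      rw [pow_succ, zpow_add_one₀ h6]; push_cast; ring⟩
  · exact ⟨9, 1, by norm_num, by norm_num, by norm_num, by
      rw [pow_succ, zpow_add_one₀ h6]; push_cast; ring⟩

/-- along a chain near `Y` the errors are multiplied exactly -/
theorem chain {Y : Set TT} (hY : Y.Finite) : ∃ η : ℝ, 0 < η ∧ ∀ (β : ℝ) (l : ℕ) (m : ℕ → ℕ) (b : ℕ → ℤ),
    (∀ t < l, |((m (t + 1) : ℕ) : ℤ) - m t| ≤ 1 ∧ |b (t + 1) - b t| ≤ 1) →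
    (∀ t ≤ l, ∃ r ∈ Y, dist (((g (m t) (b t) * β : ℝ)) : TT) r < η) →
    ∃ r ∈ Y, ∃ r' ∈ Y, ∃ δ δ' : ℝ, |δ| < 1 ∧ |δ'| < 1 ∧ ((g (m 0) (b 0) * β : ℝ) : TT) = r + (δ : TT) ∧
      ((g (m l) (b l) * β : ℝ) : TT) = r' + (δ' : TT) ∧ δ' * g (m 0) (b 0) = δ * g (m l) (b l) := by
  obtain ⟨η, hη, hstep⟩ := step_gap hY
  refine ⟨min η 1, lt_min hη one_pos, fun β l m b hmb hnear => ?_⟩
  have h1 : ∀ t, ∃ (r : TT) (δ : ℝ), t ≤ l → (r ∈ Y ∧ |δ| < min η 1 ∧
      ((g (m t) (b t) * β : ℝ) : TT) = r + (δ : TT)) := by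
    intro t
    by_cases ht : t ≤ l
    · obtain ⟨r, hr, hd⟩ := hnear t ht
      obtain ⟨δ, hδ, hδn⟩ := Pool.Agent.H847R3.XpXq.exists_rep_norm (((g (m t) (b t) * β : ℝ) : TT) - r)
      refine ⟨r, δ, fun _ => ⟨hr, ?_, ?_⟩⟩
      · rw [hδn, ← dist_eq_norm]
        exact hd
      · rw [hδ]
        abel
    · exact ⟨0, 0, fun h => absurd h ht⟩
  choose r δ h using h1
  have hall : ∀ t ≤ l, δ t * g (m 0) (b 0) = δ 0 * g (m t) (b t) := by
    intro t
    induction t with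
    | zero => intro _; ring
    | succ t ih =>
      intro ht
      have h2 := ih (by omega)
      obtain ⟨a1, a2, a3⟩ := h t (by omega)
      obtain ⟨b1, b2, b3⟩ := h (t + 1) ht
      obtain ⟨A, B, hA1, hA9, hB9, hAB⟩ := g_step (hmb t (by omega)).1 (hmb t (by omega)).2
      have h3 := hstep A B hA9 hB9 _ _ _ _ _ _ a1 b1 a3 b3
        (lt_of_lt_of_le a2 (min_le_left _ _)) (lt_of_lt_of_le b2 (min_le_left _ _)) (by
          rw [← mul_assoc, ← mul_assoc, hAB])
      have hA0 : (A : ℝ) ≠ 0 := by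
        have : (1 : ℝ) ≤ A := by exact_mod_cast hA1
        linarith
      apply mul_left_cancel₀ hA0
      calc (A : ℝ) * (δ (t + 1) * g (m 0) (b 0)) = (A * δ (t + 1)) * g (m 0) (b 0) := by ring
        _ = B * (δ t * g (m 0) (b 0)) := by rw [h3]; ring
        _ = δ 0 * (B * g (m t) (b t)) := by rw [h2]; ring
        _ = A * (δ 0 * g (m (t + 1)) (b (t + 1))) := by rw [← hAB]; ring
  obtain ⟨a1, a2, a3⟩ := h 0 (Nat.zero_le _)
  obtain ⟨b1, b2, b3⟩ := h l le_rfl
  exact ⟨r 0, a1, r l, b1, δ 0, δ l, lt_of_lt_of_le a2 (min_le_right _ _),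
    lt_of_lt_of_le b2 (min_le_right _ _), a3, b3, hall l le_rfl⟩

end Pool.Agent.J4H78.TS
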