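import Mathlib
import Pool.Agent.J4H78.TS.Path

/-!
# Ridout's theorem in the light cone
-/

set_option autoImplicit false

namespace Pool.Agent.J4H78.TS

open Filter Topology Set
open Pool.Agent.H847R3.XpXq (TT Inv)

/-- the slope of the left edge of the light cone -/
noncomputable def kap : ℝ := Real.log (3 / 2) / Real.log 6

lemma kap_pos : 0 < kap := div_pos (Real.log_pos (by norm_num)) (Real.log_pos (by norm_num))

lemma kap_lt_one : kap < 1 := by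
  unfold kap
  rw [div_lt_one (Real.log_pos (by norm_num))]
  exact Real.log_lt_log (by norm_num) (by norm_num)

lemma g_eq (m : ℕ) (b : ℤ) : g m b = (6 : ℝ) ^ ((b : ℝ) + kap * m) := by
  unfold g
  rw [Real.rpow_add (by norm_num), Real.rpow_intCast, Real.rpow_mul (by norm_num), Real.rpow_natCast]
  congr 2
  unfold kap
  rw [Real.rpow_def_of_pos (by norm_num)]
  have h6 : Real.log 6 ≠ 0 := (Real.log_pos (by norm_num)).ne'
  rw [mul_div_cancel₀ _ h6, Real.exp_log (by norm_num)]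

/-- no point of the reduced light cone has a fractional part exponentially close to a fraction with
denominator `Q` -/
theorem ridout_cone {m0 : ℕ} (hm0 : 0 < m0) (k : ℕ) {Q : ℕ} (hQ : 1 ≤ Q) {ε : ℝ} (hε : 0 < ε) :
    ∃ N₀ : ℕ, ∀ N ≥ N₀, ∀ (m : ℕ) (b z : ℤ), m ≤ N → -(kap * m) + ε * N ≤ b → (b : ℝ) ≤ m - ε * N →
      Q * (6 : ℝ) ^ (-(ε * N)) < |Q * (g m (b - 1) * ((m0 : ℝ) / 6 ^ k)) - z| := by
  have hl6 : 0 < Real.log 6 := Real.log_pos (by norm_num)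
  have hl9 : 0 < Real.log 9 := Real.log_pos (by norm_num)
  set η : ℝ := ε * Real.log 6 / (2 * Real.log 9) with hη
  have hη0 : 0 < η := by positivity
  obtain ⟨κ, hκ, hR⟩ := Pool.Agent.TH419.FS.ridout_pow (b := 2) (c := 3) le_rfl (by norm_num) (by norm_num)
    (Q * m0) (Nat.mul_pos hQ hm0) η hη0
  have hQR : (1 : ℝ) ≤ Q := by exact_mod_cast hQ
  -- conditions on N
  obtain ⟨N1, hN1⟩ : ∃ N1 : ℕ, ((k : ℝ) + 2) / ε ≤ N1 := exists_nat_ge _
  obtain ⟨N2, hN2⟩ : ∃ N2 : ℕ, (Q * m0 : ℝ) / ε ≤ N2 := exists_nat_ge _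
  have htend : Tendsto (fun N : ℕ => (6 : ℝ) ^ (ε / 2 * (N : ℝ))) atTop atTop := by
    have h1 : Tendsto (fun N : ℕ => ε / 2 * (N : ℝ)) atTop atTop :=
      tendsto_natCast_atTop_atTop.const_mul_atTop (by positivity)
    exact (tendsto_rpow_atTop_of_base_gt_one 6 (by norm_num)).comp h1
  obtain ⟨N3, hN3⟩ := (htend.eventually (eventually_gt_atTop ((Q : ℝ) / κ))).exists_forall_of_atTop
  refine ⟨max (max N1 N2) N3, fun N hN m b z hm hb1 hb2 => ?_⟩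
  have hNR1 : ((k : ℝ) + 2) ≤ ε * N := by
    have h1 : (N1 : ℝ) ≤ N := by exact_mod_cast ((le_max_left _ _).trans (le_max_left _ _)).trans hN
    rw [div_le_iff₀ hε] at hN1
    nlinarith
  have hNR2 : (Q * m0 : ℝ) ≤ ε * N := by
    have h1 : (N2 : ℝ) ≤ N := by exact_mod_cast ((le_max_right _ _).trans (le_max_left _ _)).trans hN
    rw [div_le_iff₀ hε] at hN2
    nlinarith
  have hNR3 : (Q : ℝ) / κ < (6 : ℝ) ^ (ε / 2 * (N : ℝ)) := hN3 N ((le_max_right _ _).trans hN)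
  have hmR : (m : ℝ) ≤ N := by exact_mod_cast hm
  have hm0R : (0 : ℝ) ≤ m := Nat.cast_nonneg m
  -- the exponents
  have hi : (0 : ℝ) ≤ (m : ℝ) + b - 1 - k := by
    have h1 : kap * m ≤ m := by
      have := kap_lt_one
      nlinarith
    linarith
  have hi' : (0 : ℤ) ≤ (m : ℤ) + b - 1 - k := by
    have : ((0 : ℤ) : ℝ) ≤ (((m : ℤ) + b - 1 - k : ℤ) : ℝ) := by push_cast; linarith
    exact_mod_cast this
  obtain ⟨i, hi2⟩ := Int.eq_ofNat_of_zero_le hi'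
  have hν : (0 : ℝ) ≤ (m : ℝ) - b + 1 + k := by
    have : (0 : ℝ) ≤ k := Nat.cast_nonneg k
    linarith
  have hν' : (0 : ℤ) ≤ (m : ℤ) - b + 1 + k := by
    have : ((0 : ℤ) : ℝ) ≤ (((m : ℤ) - b + 1 + k : ℤ) : ℝ) := by push_cast; linarith
    exact_mod_cast this
  obtain ⟨ν, hν2⟩ := Int.eq_ofNat_of_zero_le hν'
  have hiR : (i : ℝ) = (m : ℝ) + b - 1 - k := by
    have : ((i : ℤ) : ℝ) = (((m : ℤ) + b - 1 - k : ℤ) : ℝ) := by rw [hi2]
    push_cast at this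
    linarith
  have hνR : (ν : ℝ) = (m : ℝ) - b + 1 + k := by
    have : ((ν : ℤ) : ℝ) = (((m : ℤ) - b + 1 + k : ℤ) : ℝ) := by rw [hν2]
    push_cast at this
    linarith
  -- the value
  have hval : g m (b - 1) * ((m0 : ℝ) / 6 ^ k) = m0 * (3 : ℝ) ^ i / (2 : ℝ) ^ ν := by
    unfold g
    have h2 : (2 : ℝ) ≠ 0 := by norm_num
    have h3 : (3 : ℝ) ≠ 0 := by norm_num
    have e6 : (6 : ℝ) ^ (b - 1) = 2 ^ (b - 1) * 3 ^ (b - 1) := by rw [← mul_zpow]; norm_num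
    have e6k : (6 : ℝ) ^ k = 2 ^ (k : ℤ) * 3 ^ (k : ℤ) := by
      rw [zpow_natCast, zpow_natCast, ← mul_pow]; norm_num
    have em : ((3 : ℝ) / 2) ^ m = 3 ^ (m : ℤ) / 2 ^ (m : ℤ) := by
      rw [zpow_natCast, zpow_natCast, div_pow]
    have e3 : (3 : ℝ) ^ i = 3 ^ (m : ℤ) * 3 ^ (b - 1) / 3 ^ (k : ℤ) := by
      rw [← zpow_natCast, ← zpow_add₀ h3, ← zpow_sub₀ h3]
      congr 1
      omega
    have e2 : (2 : ℝ) ^ ν = 2 ^ (m : ℤ) * 2 ^ (k : ℤ) / 2 ^ (b - 1) := by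
      rw [← zpow_natCast, ← zpow_add₀ h2, ← zpow_sub₀ h2]
      congr 1
      omega
    rw [e6, e6k, em, e3, e2]
    field_simp
  -- the inequality between the powers
  have hle : ((2 : ℕ) : ℝ) ^ ν ≤ ((3 : ℕ) : ℝ) ^ i := by
    have h1 : Real.log ((2 : ℝ) ^ ν) ≤ Real.log ((3 : ℝ) ^ i) := by
      rw [Real.log_pow, Real.log_pow, hiR, hνR]
      have e1 : Real.log (3 / 2) = Real.log 3 - Real.log 2 := Real.log_div (by norm_num) (by norm_num)
      have e2 : Real.log 6 = Real.log 3 + Real.log 2 := by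
        rw [← Real.log_mul (by norm_num) (by norm_num)]; norm_num
      have e3 : kap * Real.log 6 = Real.log (3 / 2) := by
        unfold kap
        field_simp
      have h2 : (0 : ℝ) ≤ ((b : ℝ) - 1 - k + kap * m) * Real.log 6 := by
        apply mul_nonneg _ hl6.le
        linarith
      have h3 : ((b : ℝ) - 1 - k + kap * m) * Real.log 6 =
          ((b : ℝ) - 1 - k) * (Real.log 3 + Real.log 2) + m * (Real.log 3 - Real.log 2) := by
        rw [← e2, ← e1, ← e3]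
        ring
      rw [h3] at h2
      nlinarith
    have h4 := (Real.log_le_log_iff (by positivity) (by positivity)).1 h1
    exact_mod_cast h4
  -- not equal
  have hne : ((Q * m0 : ℕ) : ℤ) * (3 : ℕ) ^ i ≠ z * (2 : ℕ) ^ ν := by
    intro heq
    have h1 : (2 : ℤ) ^ ν ∣ ((Q * m0 : ℕ) : ℤ) * 3 ^ i := ⟨z, by push_cast at heq ⊢; rw [heq]; ring⟩
    have h2 : IsCoprime ((2 : ℤ) ^ ν) ((3 : ℤ) ^ i) :=
      (Int.isCoprime_iff_gcd_eq_one.2 (by norm_num) : IsCoprime (2 : ℤ) 3).pow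
    have h3 := h2.dvd_of_dvd_mul_right h1
    have h4 : 2 ^ ν ∣ Q * m0 := by exact_mod_cast h3
    have h5 := Nat.le_of_dvd (Nat.mul_pos hQ hm0) h4
    have h6 : ν < 2 ^ ν := Nat.lt_two_pow_self
    have h7 : (ν : ℝ) < Q * m0 := by exact_mod_cast lt_of_lt_of_le h6 h5
    rw [hνR] at h7
    have : (0 : ℝ) ≤ k := Nat.cast_nonneg k
    linarith
  have h8 := hR ν i z hle hne
  have h9 : (((3 : ℕ) : ℝ) ^ i) ^ η ≤ (6 : ℝ) ^ (ε / 2 * (N : ℝ)) := by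
    have h10 : (i : ℝ) ≤ 2 * N := by
      rw [hiR]
      have h11 : (0 : ℝ) ≤ k := Nat.cast_nonneg k
      have h12 : 0 ≤ ε * N := by positivity
      linarith
    have h13 : ((3 : ℕ) : ℝ) ^ i = Real.exp (i * Real.log 3) := by
      rw [mul_comm, Real.exp_mul, Real.exp_log (by norm_num), Real.rpow_natCast]
      norm_num
    rw [h13, ← Real.exp_mul, Real.rpow_def_of_pos (by norm_num)]
    apply Real.exp_le_exp.2
    have h14 : Real.log 9 = 2 * Real.log 3 := by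
      rw [show (9 : ℝ) = 3 ^ 2 by norm_num, Real.log_pow]; norm_num
    have h15 : η * (2 * Real.log 9) = ε * Real.log 6 := by
      rw [hη]; field_simp
    have hl3 : 0 < Real.log 3 := Real.log_pos (by norm_num)
    calc (i : ℝ) * Real.log 3 * η ≤ 2 * N * Real.log 3 * η := by gcongr
      _ = (η * (2 * Real.log 9)) * N / 2 := by rw [h14]; ring
      _ = Real.log 6 * (ε / 2 * N) := by rw [h15]; ring
  have hA : (0 : ℝ) < (6 : ℝ) ^ (ε / 2 * (N : ℝ)) := by positivity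
  have hB : (6 : ℝ) ^ (-(ε * N)) * ((6 : ℝ) ^ (ε / 2 * (N : ℝ)) * (6 : ℝ) ^ (ε / 2 * (N : ℝ))) = 1 := by
    rw [← Real.rpow_add (by norm_num), ← Real.rpow_add (by norm_num)]
    have : -(ε * N) + (ε / 2 * N + ε / 2 * N) = 0 := by ring
    rw [this, Real.rpow_zero]
  have hval2 : Q * (g m (b - 1) * ((m0 : ℝ) / 6 ^ k)) - z =
      ((Q * m0 : ℕ) : ℝ) * ((3 : ℕ) : ℝ) ^ i / ((2 : ℕ) : ℝ) ^ ν - z := by
    rw [hval]
    push_cast
    ring
  rw [hval2]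
  set W : ℝ := |((Q * m0 : ℕ) : ℝ) * ((3 : ℕ) : ℝ) ^ i / ((2 : ℕ) : ℝ) ^ ν - z| with hW
  have hW0 : 0 ≤ W := abs_nonneg _
  have h16 : κ ≤ (6 : ℝ) ^ (ε / 2 * (N : ℝ)) * W := h8.trans (mul_le_mul_of_nonneg_right h9 hW0)
  rw [div_lt_iff₀ hκ] at hNR3
  have h17 : (Q : ℝ) < (6 : ℝ) ^ (ε / 2 * (N : ℝ)) * ((6 : ℝ) ^ (ε / 2 * (N : ℝ)) * W) :=
    lt_of_lt_of_le hNR3 (mul_le_mul_of_nonneg_left h16 hA.le)
  have hC : (0 : ℝ) < (6 : ℝ) ^ (-(ε * N)) := by positivity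
  calc (Q : ℝ) * (6 : ℝ) ^ (-(ε * N)) < ((6 : ℝ) ^ (ε / 2 * (N : ℝ)) *
        ((6 : ℝ) ^ (ε / 2 * (N : ℝ)) * W)) * (6 : ℝ) ^ (-(ε * N)) := mul_lt_mul_of_pos_right h17 hC
    _ = W * ((6 : ℝ) ^ (-(ε * N)) * ((6 : ℝ) ^ (ε / 2 * (N : ℝ)) * (6 : ℝ) ^ (ε / 2 * (N : ℝ)))) := by ring
    _ = W := by rw [hB, mul_one]

end Pool.Agent.J4H78.TS
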