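import Mathlib
import Pool.Agent.J4H78.TS.Runs

/-!
# From arcs to words
-/

set_option autoImplicit false

namespace Pool.Agent.J4H78.TS

open Filter Topology Set
open Pool.Agent.H429R2.Auto
open Pool.Agent.H847R3.XpXq (TT Inv)

/-- `x` shows the word `w` starting at the position `j` -/
def ShowsW (x : Conf) (w : List (Fin 6)) (j : ℤ) : Prop :=
  ∀ (i : ℕ) (h : i < w.length), x (j + i) = w[i]

/-- the number coding the word -/
def code (w : List (Fin 6)) : ℕ :=
  ∑ r ∈ Finset.range w.length, ((w.getD (w.length - 1 - r) 0 : Fin 6) : ℕ) * 6 ^ r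

theorem code_lt (w : List (Fin 6)) : code w < 6 ^ w.length :=
  sum_lt w.length fun r => w.getD (w.length - 1 - r) 0

theorem shows_of {x : Conf} {β : ℝ} (hβ : 0 ≤ β) (hx : Rep x β) (w : List (Fin 6)) (j : ℤ) (n : ℕ)
    (h : ⌊(6 : ℝ) ^ (j + w.length - 1) * ((3 / 2) ^ n * β)⌋₊ % 6 ^ w.length = code w) :
    ShowsW (F^[n] x) w j := by
  intro i hi
  have h1 := letter (rep_iter hβ hx n) j w.length (w.length - 1 - i) (by omega)
  rw [h] at h1
  have h2 := digits_sum w.length (fun r => w.getD (w.length - 1 - r) 0) (w.length - 1 - i) (by omega)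
  have e1 : j + (w.length : ℤ) - 1 - ((w.length - 1 - i : ℕ) : ℤ) = j + i := by omega
  rw [e1] at h1
  have e2 : w.length - 1 - (w.length - 1 - i) = i := by omega
  unfold code at h1
  rw [h2] at h1
  simp only [e2] at h1
  have h3 : w.getD i 0 = w[i] := by
    rw [List.getD_eq_getElem?_getD, List.getElem?_eq_getElem hi]; rfl
  rw [h3] at h1
  exact Fin.ext h1

/-- a value in the middle half of the arc of the word shows the word -/
theorem shows_arc {x : Conf} {β : ℝ} (hβ : 0 ≤ β) (hx : Rep x β) (w : List (Fin 6)) (j : ℤ) (n : ℕ)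
    (h : (((3 / 2 : ℝ) ^ n * ((6 : ℝ) ^ (j - 1) * β) : ℝ) : TT) ∈ arc w.length (code w)) :
    ShowsW (F^[n] x) w j := by
  have h := arc_mem h
  apply shows_of hβ hx
  set z : ℤ := round ((3 / 2 : ℝ) ^ n * ((6 : ℝ) ^ (j - 1) * β)
    - ((code w : ℝ) + 1 / 2) / 6 ^ w.length) with hz
  set A : ℝ := (6 : ℝ) ^ w.length with hA
  have hA0 : 0 < A := by positivity
  set V : ℝ := (6 : ℝ) ^ (j + w.length - 1) * ((3 / 2) ^ n * β) with hV
  have hV0 : 0 ≤ V := by positivity
  have hVe : (3 / 2 : ℝ) ^ n * ((6 : ℝ) ^ (j - 1) * β) = V / A := by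
    rw [hV, hA, show j + (w.length : ℤ) - 1 = (j - 1) + (w.length : ℤ) by ring,
      zpow_add₀ (by norm_num), zpow_natCast]
    field_simp
  rw [hVe] at h
  have h1 : |V - (A * z + code w + 1 / 2)| < 1 / 4 := by
    have e : V - (A * z + code w + 1 / 2) = A * (V / A - ((code w : ℝ) + 1 / 2) / A - z) := by
      field_simp
      ring
    rw [e, abs_mul, abs_of_pos hA0]
    calc _ < A * (1 / (4 * A)) := mul_lt_mul_of_pos_left h hA0
      _ = 1 / 4 := by field_simp
  obtain ⟨c1, c2⟩ := abs_lt.1 h1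
  have hAn : A = ((6 ^ w.length : ℕ) : ℝ) := by rw [hA]; push_cast; rfl
  have hc := code_lt w
  have hz0 : 0 ≤ z := by
    by_contra hneg
    push Not at hneg
    have h2 : (z : ℝ) ≤ -1 := by exact_mod_cast (by omega : z ≤ -1)
    have h3 : (code w : ℝ) + 1 ≤ A := by rw [hAn]; exact_mod_cast hc
    nlinarith
  obtain ⟨y, hy⟩ := Int.eq_ofNat_of_zero_le hz0
  have hzy : (z : ℝ) = y := by rw [hy]; simp
  have hfl : ⌊V⌋₊ = 6 ^ w.length * y + code w := by
    rw [Nat.floor_eq_iff hV0]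
    push_cast
    rw [hzy] at c1 c2
    constructor <;> linarith
  rw [hfl, Nat.mul_add_mod, Nat.mod_eq_of_lt hc]

/-- shorter words -/
theorem shows_append {x : Conf} {w v : List (Fin 6)} {j : ℤ} (h : ShowsW x (w ++ v) j) : ShowsW x w j := by
  intro i hi
  have h1 := h i (by rw [List.length_append]; omega)
  rw [h1, List.getElem_append_left hi]

/-- All words of length at most `L` are shown at all the positions `j, …, j + M - 1` at times between
`n` and `n + T`. -/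
def Full (x : Conf) (L M T : ℕ) (j : ℤ) (n : ℕ) : Prop :=
  ∀ s < M, ∀ w : List (Fin 6), w.length ≤ L → ∃ t ≤ T, ShowsW (F^[n + t] x) w (j + (s : ℕ))

/-- one configuration -/
theorem one (L M : ℕ) : ∃ R T : ℕ, ∀ (x : Conf) (β : ℝ), 0 < β → Rep x β → ∀ a : ℤ,
    ∃ j : ℤ, a ≤ j ∧ j ≤ a + R ∧ {n : ℕ | Full x L M T j n}.Infinite := by
  obtain ⟨R, T, h⟩ := runs_real L M
  refine ⟨R, T, fun x β hβ hx a => ?_⟩
  obtain ⟨r, hr, h1⟩ := h ((6 : ℝ) ^ (a - 1) * β) (by positivity)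
  refine ⟨a + r, by omega, by omega, ?_⟩
  apply Set.infinite_of_not_bddAbove
  rintro ⟨B, hB⟩
  obtain ⟨n, hn, h2⟩ := h1 (B + 1)
  have h3 : n ∈ {n : ℕ | Full x L M T (a + r) n} := by
    intro s hs w hw
    obtain ⟨v, hv⟩ : ∃ v : List (Fin 6), (w ++ v).length = L :=
      ⟨List.replicate (L - w.length) 0, by rw [List.length_append, List.length_replicate]; omega⟩
    have hc := code_lt (w ++ v)
    rw [hv] at hc
    obtain ⟨t, ht, h4⟩ := h2 s hs _ hc
    refine ⟨t, ht, shows_append (v := v) (shows_arc hβ.le hx _ _ _ ?_)⟩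
    rw [hv]
    have e : (3 / 2 : ℝ) ^ (n + t) * ((6 : ℝ) ^ (a + (r : ℤ) + (s : ℕ) - 1) * β) =
        (6 : ℝ) ^ (r + s) * ((3 / 2 : ℝ) ^ (n + t) * ((6 : ℝ) ^ (a - 1) * β)) := by
      rw [show a + (r : ℤ) + (s : ℕ) - 1 = ((r + s : ℕ) : ℤ) + (a - 1) by push_cast; ring,
        zpow_add₀ (by norm_num), zpow_natCast]
      ring
    rw [e]
    exact h4
  have := hB h3
  omega

lemma full_mono {x : Conf} {L M M' T T' : ℕ} {j j' : ℤ} {n : ℕ} (h : Full x L M T j n)
    (hj : j ≤ j') (hM : j' + M' ≤ j + M) (hT : T ≤ T') : Full x L M' T' j' n := by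
  intro s hs w hw
  obtain ⟨t, ht, h1⟩ := h ((j' - j).toNat + s) (by omega) w hw
  refine ⟨t, ht.trans hT, ?_⟩
  have e : j + (((j' - j).toNat + s : ℕ) : ℤ) = j' + (s : ℕ) := by
    push_cast
    omega
  rwa [e] at h1

/-- several configurations -/
theorem several (L M k : ℕ) : ∃ R T : ℕ, ∀ x : Fin k → Conf, (∀ i, ∃ β : ℝ, 0 < β ∧ Rep (x i) β) →
    ∀ a : ℤ, ∃ j : ℤ, a ≤ j ∧ j ≤ a + R ∧ ∀ i, {n : ℕ | Full (x i) L M T j n}.Infinite := by
  induction k with
  | zero => exact ⟨0, 0, fun x _ a => ⟨a, le_rfl, by simp, fun i => i.elim0⟩⟩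
  | succ k ih =>
    obtain ⟨R, T, h⟩ := ih
    obtain ⟨R', T', h'⟩ := one L (M + R)
    refine ⟨R' + R, max T T', fun x hx a => ?_⟩
    obtain ⟨β, hβ, hβx⟩ := hx (Fin.last k)
    obtain ⟨j', h1, h2, h3⟩ := h' (x (Fin.last k)) β hβ hβx a
    obtain ⟨j, h4, h5, h6⟩ := h (fun i => x (Fin.castSucc i)) (fun i => hx _) j'
    refine ⟨j, by omega, by push_cast; omega, fun i => ?_⟩
    refine Fin.lastCases ?_ (fun i => ?_) i
    · refine h3.mono fun n hn => full_mono hn h4 ?_ (le_max_right _ _)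
      push_cast
      omega
    · exact (h6 i).mono fun n hn => full_mono hn le_rfl le_rfl (le_max_left _ _)

end Pool.Agent.J4H78.TS
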