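import Mathlib
import Pool.Agent.J4H78.TS.Rid
import Pool.Agent.J4H78.TS.Shows

/-!
# Near every long path of the light cone all words are shown
-/

set_option autoImplicit false

namespace Pool.Agent.J4H78.TS

open Filter Topology Set
open Pool.Agent.H429R2.Auto
open Pool.Agent.H847R3.XpXq (TT Inv)

lemma coe_nsmul_real (n : ℕ) (y : ℝ) : n • (y : TT) = ((n * y : ℝ) : TT) := by
  rw [← AddCircle.coe_nsmul, nsmul_eq_mul]

/-- moving by the multiplier `4 ^ i 9 ^ j` -/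
lemma g_move {m i j : ℕ} (hi : i ≤ m) (b : ℤ) :
    ((4 ^ i * 9 ^ j : ℕ) : ℝ) * g m b = g (m + j - i) (b + i + j) := by
  obtain ⟨n, rfl⟩ : ∃ n, m = n + i := ⟨m - i, by omega⟩
  have e1 : n + i + j - i = n + j := by omega
  unfold g
  rw [e1, zpow_add₀ (by norm_num), zpow_add₀ (by norm_num), zpow_natCast, zpow_natCast]
  push_cast
  have e4 : (4 : ℝ) ^ i = 6 ^ i * (2 / 3) ^ i := by rw [← mul_pow]; norm_num
  have e9 : (9 : ℝ) ^ j = 6 ^ j * (3 / 2) ^ j := by rw [← mul_pow]; norm_num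
  have e5 : ((2 : ℝ) / 3) ^ i * (3 / 2) ^ i = 1 := by rw [← mul_pow]; norm_num
  rw [e4, e9, pow_add, pow_add]
  linear_combination ((6 : ℝ) ^ i * 6 ^ j * (3 / 2) ^ n * (3 / 2) ^ j * 6 ^ b) * e5

/-- a visit to the universal set gives a full box -/
theorem full_of_visit {L M S : ℕ} {V : Set TT}
    (h : ∀ y : ℝ, (y : TT) ∈ V → ∀ s < M, ∀ c < 6 ^ L, ∃ m ≤ S,
      (((6 : ℝ) ^ (S + s) * ((3 / 2 : ℝ) ^ m * y) : ℝ) : TT) ∈ arc L c)
    {x : Conf} {β : ℝ} (hβ : 0 ≤ β) (hx : Rep x β) {m : ℕ} {b : ℤ}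
    (hv : ((g m (b - 1) * β : ℝ) : TT) ∈ V) : Full x L M S (b + S) m := by
  intro s hs w hw
  obtain ⟨v, hv2⟩ : ∃ v : List (Fin 6), (w ++ v).length = L :=
    ⟨List.replicate (L - w.length) 0, by rw [List.length_append, List.length_replicate]; omega⟩
  have hc := code_lt (w ++ v)
  rw [hv2] at hc
  obtain ⟨t, ht, h4⟩ := h _ hv s hs _ hc
  refine ⟨t, ht, shows_append (v := v) (shows_arc hβ hx _ _ _ ?_)⟩
  rw [hv2]
  have e : (3 / 2 : ℝ) ^ (m + t) * ((6 : ℝ) ^ (b + (S : ℤ) + (s : ℕ) - 1) * β) =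
      (6 : ℝ) ^ (S + s) * ((3 / 2 : ℝ) ^ t * (g m (b - 1) * β)) := by
    unfold g
    rw [show b + (S : ℤ) + (s : ℕ) - 1 = ((S + s : ℕ) : ℤ) + (b - 1) by push_cast; ring,
      zpow_add₀ (by norm_num), zpow_natCast, pow_add _ m t]
    ring
  rw [e]
  exact h4

/-- **Near every path.** -/
theorem near (L M : ℕ) : ∃ R T : ℕ, ∀ x : Conf, IsFin x → x ≠ 0 → ∀ ε : ℝ, 0 < ε →
    ∃ N₀ : ℕ, ∀ N ≥ N₀, ∀ (l : ℕ) (m : ℕ → ℕ) (b : ℕ → ℤ),
    (∀ t < l, |((m (t + 1) : ℕ) : ℤ) - m t| ≤ 1 ∧ |b (t + 1) - b t| ≤ 1) →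
    (∀ t ≤ l, m t ≤ N ∧ -(kap * m t) + ε * N ≤ b t ∧ (b t : ℝ) ≤ m t - ε * N) →
    ε * N ≤ |((b l : ℝ) + kap * m l) - (b 0 + kap * m 0)| →
    ∃ t ≤ l, ∃ (m' : ℕ) (b' : ℤ), |(m' : ℤ) - m t| ≤ R ∧ |b' - b t| ≤ R ∧ Full x L M T b' m' := by
  obtain ⟨S, V, hV, hne, hfull⟩ := univ_set L M
  obtain ⟨Y, hYf, hYinv, hY⟩ := finite_net hV hne
  obtain ⟨η, hη, hchain⟩ := chain hYf
  obtain ⟨R, hR⟩ := hY η hη
  obtain ⟨Q, hQ, hQr⟩ := exists_denom hYf hYinv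
  refine ⟨R + S, S, fun x hx hx0 ε hε => ?_⟩
  obtain ⟨m0, k, hrep, hm0, -⟩ := exists_rep hx
  have hm0 := hm0 hx0
  obtain ⟨N1, hN1⟩ := ridout_cone hm0 k hQ hε
  obtain ⟨N2, hN2⟩ : ∃ N2 : ℕ, (R : ℝ) / ε ≤ N2 := exists_nat_ge _
  refine ⟨max N1 N2, fun N hN l m b hstep hreg hht => ?_⟩
  have hβ0 : (0 : ℝ) ≤ (m0 : ℝ) / 6 ^ k := by positivity
  by_contra hcon
  push Not at hcon
  have hNR : (R : ℝ) ≤ ε * N := by
    have h1 : (N2 : ℝ) ≤ N := by exact_mod_cast (le_max_right _ _).trans hN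
    rw [div_le_iff₀ hε] at hN2
    nlinarith
  have hnear : ∀ t ≤ l, ∃ r ∈ Y, dist (((g (m t) (b t - 1) * ((m0 : ℝ) / 6 ^ k) : ℝ)) : TT) r < η := by
    intro t ht
    apply hR
    intro i j hij hmem
    obtain ⟨h1, h2, h3⟩ := hreg t ht
    have hmR : (R : ℝ) ≤ m t := by
      have h4 : kap * m t ≤ m t := by
        have := kap_lt_one
        have : (0 : ℝ) ≤ m t := Nat.cast_nonneg _
        nlinarith
      have h5 : 2 * (ε * N) ≤ (1 + kap) * m t := by linarith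
      have h6 : (1 + kap) * m t ≤ 2 * m t := by
        have := kap_lt_one
        have : (0 : ℝ) ≤ m t := Nat.cast_nonneg _
        nlinarith
      linarith
    have hmR' : R ≤ m t := by exact_mod_cast hmR
    rw [coe_nsmul_real, ← mul_assoc, g_move (by omega)] at hmem
    have e : b t - 1 + (i : ℤ) + j = (b t + i + j) - 1 := by ring
    rw [e] at hmem
    have h4 := full_of_visit hfull hβ0 hrep hmem
    refine hcon t ht (m t + j - i) (b t + i + j + S) ?_ ?_ h4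
    · rw [abs_le]
      have : (((m t + j - i : ℕ) : ℕ) : ℤ) = (m t : ℤ) + j - i := by
        rw [Nat.cast_sub (by omega)]
        push_cast
        ring
      rw [this]
      push_cast
      constructor <;> omega
    · rw [abs_le]
      push_cast
      constructor <;> omega
  obtain ⟨r, hr, r', hr', δ, δ', hδ, hδ', e1, e2, e3⟩ := hchain ((m0 : ℝ) / 6 ^ k) l m (fun t => b t - 1)
    (fun t ht => ⟨(hstep t ht).1, by
      have := (hstep t ht).2
      rw [show b (t + 1) - 1 - (b t - 1) = b (t + 1) - b t by ring]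
      exact this⟩) hnear
  -- an endpoint with a very small error
  have hfin : ∀ (t : ℕ) (r : TT) (δ : ℝ), t ≤ l → r ∈ Y →
      ((g (m t) (b t - 1) * ((m0 : ℝ) / 6 ^ k) : ℝ) : TT) = r + (δ : TT) →
      (6 : ℝ) ^ (-(ε * N)) < |δ| := by
    intro t r δ ht hr h1
    obtain ⟨a1, a2, a3⟩ := hreg t ht
    have h2 : ((Q * (g (m t) (b t - 1) * ((m0 : ℝ) / 6 ^ k)) - Q * δ : ℝ) : TT) = 0 := by
      rw [AddCircle.coe_sub, ← coe_nsmul_real, ← coe_nsmul_real, h1, smul_add, hQr r hr]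
      abel
    rw [AddCircle.coe_eq_zero_iff] at h2
    obtain ⟨z, hz⟩ := h2
    simp only [zsmul_eq_mul, mul_one] at hz
    have h3 := hN1 N ((le_max_left _ _).trans hN) (m t) (b t) z a1 a2 a3
    have e : Q * (g (m t) (b t - 1) * ((m0 : ℝ) / 6 ^ k)) - z = Q * δ := by rw [hz]; ring
    have hQ0 : (0 : ℝ) < Q := by
      have : 0 < Q := hQ
      exact_mod_cast this
    rw [e, abs_mul, abs_of_pos hQ0] at h3
    exact lt_of_mul_lt_mul_left h3 hQ0.le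
  have f0 := hfin 0 r δ (Nat.zero_le _) hr e1
  have fl := hfin l r' δ' le_rfl hr' e2
  -- compare
  have hcmp : |δ'| * g (m 0) (b 0 - 1) = |δ| * g (m l) (b l - 1) := by
    have := congrArg abs e3
    rwa [abs_mul, abs_mul, abs_of_pos (g_pos _ _), abs_of_pos (g_pos _ _)] at this
  rw [g_eq, g_eq] at hcmp
  push_cast at hcmp
  set h0 : ℝ := (b 0 : ℝ) - 1 + kap * m 0 with hh0
  set hl : ℝ := (b l : ℝ) - 1 + kap * m l with hhl
  have hd : ε * N ≤ |hl - h0| := by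
    have e : hl - h0 = ((b l : ℝ) + kap * m l) - (b 0 + kap * m 0) := by rw [hh0, hhl]; ring
    rw [e]
    exact hht
  have key : ∀ u v a c : ℝ, a < 1 → 0 ≤ a → (6 : ℝ) ^ (-(ε * N)) < c → a * (6 : ℝ) ^ u = c * (6 : ℝ) ^ v →
      ε * N ≤ v - u → False := by
    intro u v a c ha ha0 hc h1 h2
    have h3 : (6 : ℝ) ^ v = (6 : ℝ) ^ (v - u) * (6 : ℝ) ^ u := by
      rw [← Real.rpow_add (by norm_num)]
      congr 1
      ring
    have h4 : (6 : ℝ) ^ (ε * N) ≤ (6 : ℝ) ^ (v - u) := Real.rpow_le_rpow_of_exponent_le (by norm_num) h2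
    have h5 : (0 : ℝ) < (6 : ℝ) ^ u := by positivity
    rw [h3, ← mul_assoc] at h1
    have h6 : a = c * (6 : ℝ) ^ (v - u) := mul_right_cancel₀ h5.ne' h1
    have h7 : (0 : ℝ) < (6 : ℝ) ^ (-(ε * N)) := by positivity
    have h8 : (6 : ℝ) ^ (-(ε * N)) * (6 : ℝ) ^ (ε * N) = 1 := by
      rw [← Real.rpow_add (by norm_num)]
      simp
    have h9 : (1 : ℝ) ≤ c * (6 : ℝ) ^ (v - u) := by
      rw [← h8]
      exact mul_le_mul hc.le h4 (by positivity) (by linarith)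
    linarith
  rcases le_total h0 hl with h | h
  · rw [abs_of_nonneg (by linarith)] at hd
    exact key h0 hl |δ'| |δ| hδ' (abs_nonneg _) f0 hcmp hd
  · rw [abs_of_nonpos (by linarith)] at hd
    exact key hl h0 |δ| |δ'| hδ (abs_nonneg _) fl hcmp.symm (by linarith)

end Pool.Agent.J4H78.TS
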